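import Pool.Agent.Lib.MP_6e81d8_ag.H22.Final8

set_option autoImplicit false

namespace Pool.Agent.Results.MP_6e81d8_ag.FewValues

theorem result :
  ∀ (r d μ : ℕ) (m : Fin (r + 8) → ℕ), Antitone m → (∀ i, 0 < m i) → 0 < μ →
    (∀ i : Fin (r + 8), 8 ≤ i.val → m i ≤ μ) → m 0 + m 1 + m 2 ≤ d → m 0 + 10 ^ 6 * μ ≤ d →
    10 ^ 50 * (Finset.univ.image m).card * μ ^ 2 +
        ∑ i ∈ Finset.univ.filter (fun i : Fin (r + 8) => i.val < 8), m i ^ 2 ≤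
      max (d ^ 2) (∑ i : Fin (r + 8), m i ^ 2) →
    ∃ F : MvPolynomial (Fin (r + 8) × Fin 2) ℂ, F ≠ 0 ∧
      ∀ p : Fin (r + 8) → Fin 2 → ℂ,
        MvPolynomial.eval (fun ij : Fin (r + 8) × Fin 2 => p ij.1 ij.2) F ≠ 0 →
        ((Module.finrank ℂ
            ↥(MvPolynomial.restrictTotalDegree (Fin 2) ℂ d ⊓
              ⨅ i : Fin (r + 8),
                ((RingHom.ker (MvPolynomial.eval (p i))) ^ (m i)).restrictScalars ℂ) : ℤ) - 1)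
          = max (-1) (((d * (d + 3) / 2 : ℕ) : ℤ)
              - ∑ i : Fin (r + 8), ((m i * (m i + 1) / 2 : ℕ) : ℤ)) :=
  fun _ d μ m h1 h2 h3 h4 h5 h6 h7 => Pool.Agent.Lib.MP_6e81d8_ag.expected_of_bd m
    (Pool.Agent.Lib.MP_6e81d8_ag.H22.eight_free d μ m h1 h2 h3 h4 h5 h6 h7)

end Pool.Agent.Results.MP_6e81d8_ag.FewValues
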