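import Pool.Agent.Lib.MP_6e81d8_ag.H87.Main

set_option autoImplicit false

namespace Pool.Agent.Results.MP_6e81d8_ag.NagataAll

theorem result :
  ∀ (n d : ℕ) (m : Fin n → ℕ), 10 ≤ n → 0 < ∑ i : Fin n, m i →
    Real.sqrt n * d ≤ ∑ i : Fin n, (m i : ℝ) →
    ∃ F : MvPolynomial (Fin n × Fin 2) ℂ, F ≠ 0 ∧
      ∀ p : Fin n → Fin 2 → ℂ,
        MvPolynomial.eval (fun ij : Fin n × Fin 2 => p ij.1 ij.2) F ≠ 0 →
        MvPolynomial.restrictTotalDegree (Fin 2) ℂ d ⊓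
          ⨅ i : Fin n, ((RingHom.ker (MvPolynomial.eval (p i))) ^ (m i)).restrictScalars ℂ = ⊥ :=
  fun _ _ m hn h0 h => Pool.Agent.Lib.MP_6e81d8_ag.H87.nagata m hn h0 h

end Pool.Agent.Results.MP_6e81d8_ag.NagataAll
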