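import Pool.Agent.Lib.MP_6e81d8_ag.H39.Fill

set_option autoImplicit false

namespace Pool.Agent.Results.MP_6e81d8_ag.SquarePackingNef

theorem result :
  ∀ (r d : ℕ) (m : Fin r → ℕ) (t : Fin r → ℝ) (e : ℝ),
    Pool.Agent.Lib.MP_6e81d8_ag.H39.Fills t e e Finset.univ →
    e * (d : ℝ) < ∑ i : Fin r, t i * (m i : ℝ) →
    ∃ F : MvPolynomial (Fin r × Fin 2) ℂ, F ≠ 0 ∧
      ∀ p : Fin r → Fin 2 → ℂ,
        MvPolynomial.eval (fun ij : Fin r × Fin 2 => p ij.1 ij.2) F ≠ 0 →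
        MvPolynomial.restrictTotalDegree (Fin 2) ℂ d ⊓
          ⨅ i : Fin r, ((RingHom.ker (MvPolynomial.eval (p i))) ^ (m i)).restrictScalars ℂ = ⊥ :=
  fun _ _ _ _ _ H h => Pool.Agent.Lib.MP_6e81d8_ag.H39.fills_empty H h

end Pool.Agent.Results.MP_6e81d8_ag.SquarePackingNef
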